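import Pool.Agent.J4H26.SZ.Zl
import Pool.Agent.Y125.GP.VAR
import Pool.Agent.Y434.GP.RPL
import Pool.Agent.Y969.GP.BR5
import Pool.Agent.Y969.GP.Fin2
import Pool.Agent.Y969.GP.Fin3
import Pool.Agent.Y961.GP.NS
import Pool.Agent.Y232.GP.E1
import Pool.Agent.Y86.GP.CT
import Pool.Agent.Y379.GP.Off
import Pool.Agent.Y545.GP.CR
import Pool.Agent.Y258.GP.MB
import Pool.Agent.Y180.GP.Mel
import Pool.Agent.Y185.GP.HOL
import Pool.Agent.Y319.GP.FB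
import Pool.Agent.Y321.GP.FD
import Pool.Agent.Y79.GP.ZP
import Pool.Agent.Y22.GP.Tel
import Pool.Agent.Y155.GP.D1
import Pool.Agent.Y125.GP.LSW
import Pool.Agent.Y379.GP.Sp
import Pool.Agent.Y891.GP.AFE
import Pool.Agent.Y587.GP.V
import Pool.Agent.Y587.GP.Chi

set_option autoImplicit false

/-! Shifted moments with the remainder `T^(1/2+ε)`: all the parts of project GP together. -/

namespace Pool.Agent.J4H26.SZ

open Pool.Agent.Y969.GP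

theorem g_V : S_V := Pool.Agent.Y587.GP.t_V
theorem g_SP : S_SP := Pool.Agent.Y379.GP.t_SP
theorem g_AFE : S_AFE := Pool.Agent.Y891.GP.t_AFE g_V Pool.Agent.Y587.GP.Chi.t_CHI
theorem g_VAR : S_VAR :=
  Pool.Agent.Y125.GP.t_VAR g_SP (Pool.Agent.Y125.GP.t_LSW g_SP) Pool.Agent.Y379.GP.t_OFF (Pool.Agent.Y545.GP.t_CR g_V)
theorem g_RPL : S_RPL := Pool.Agent.Y434.GP.t_RPL g_AFE t_SM
theorem g_FD : S_FD := Pool.Agent.Y321.GP.t_FD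
theorem g_MB : S_MB := Pool.Agent.Y258.GPMB.t_MB (Pool.Agent.Y319.GP.t_FB g_FD) t_ZL Pool.Agent.Y79.GP.t_ZP
theorem g_HOL : S_HOL := Pool.Agent.Y185.GP.t_HOL (Pool.Agent.Y319.GP.t_FHD g_FD) (Pool.Agent.Y319.GP.t_FHC g_FD)
theorem g_HOL2 : S_HOL2 := Pool.Agent.Y185.GP.t_HOL2 (Pool.Agent.Y319.GP.t_FHD g_FD) (Pool.Agent.Y319.GP.t_FHC g_FD)
theorem g_TEL : S_TEL := Pool.Agent.Y22.GP.t_TEL Pool.Agent.Y155.GP.t_D1
theorem g_TEL2 : S_TEL2 := Pool.Agent.Y22.GP.t_TEL2 Pool.Agent.Y155.GP.t_D2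
theorem g_BRW : S_BRW := t_BRW g_TEL g_TEL2 g_HOL g_HOL2 g_MB (Pool.Agent.Y180.GP.t_MEL g_V)
theorem g_RRW : S_RRW := t_RRW g_TEL2 g_HOL g_HOL2 g_MB
theorem g_MAIN : S_MAIN :=
  t_MAIN g_VAR g_RPL g_BRW g_RRW Pool.Agent.Y961.GP.t_NS (Pool.Agent.Y232.GP.t_E1 t_SM) (Pool.Agent.Y86.GP.t_CT g_V)

end Pool.Agent.J4H26.SZ
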