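import Pool.Agent.J4H26.SZ.Sm2
import Pool.Agent.Y969.SM.Res
import Pool.Agent.Y969.SM.Win
import Pool.Agent.Y969.SM.Fin
import Pool.Agent.Y739.SX.FA
import Pool.Agent.Y429.SX.FB
import Pool.Agent.Y360.SX.F8
import Pool.Agent.Y246.SX.W1
import Pool.Agent.Y448.SX.W2
import Pool.Agent.Y780.SX.Blk
import Pool.Agent.Y547.SX.Min
import Pool.Agent.Y620.SX.CRA
import Pool.Agent.Y812.SX.OMX
import Pool.Agent.Y953.SX.Ort
import Pool.Agent.Y76.SX.ARI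
import Pool.Agent.Y670.SX.TAY
import Pool.Agent.Y726.SX.TWC
import Pool.Agent.Y369.SX.Ars
import Pool.Agent.Y809.SX.UB0
import Pool.Agent.Y4.SX.UB
import Pool.Agent.Y293.SX.TL2
import Pool.Agent.Y604.SX.AS
import Pool.Agent.Y81.SX.T0
import Pool.Agent.Y475.SX.SHP
import Pool.Agent.Y77.SX.CTW
import Pool.Agent.Y978.SX.EUL
import Pool.Agent.Y852.SX.Loc
import Pool.Agent.Y983.SX.EUT
import Pool.Agent.Y686.SX.Lsm
import Pool.Agent.Y781.SX.LB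
import Pool.Agent.Y514.SX.ZE
import Pool.Agent.Y81.SX.AAP
import Pool.Agent.Y96.SX.ZM
import Pool.Agent.Y901.SX.A1
import Pool.Agent.Y54.SX.A2
import Pool.Agent.TH806.N4.Abs
import Pool.Agent.TH384.N4_FM

set_option autoImplicit false

/-! Shifted moments with a fourth power: all the parts of project SX together. -/

namespace Pool.Agent.J4H26.SZ

open Filter Topology MeasureTheory
open Pool.Agent.Y969.SM
open Pool.Agent.H306R2.SM (om cl)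
open Pool.Agent.H262R4.TM (Rng)

theorem x_AFE : Pool.Agent.Y969.GP.S_AFE :=
  Pool.Agent.Y891.GP.t_AFE Pool.Agent.Y587.GP.t_V Pool.Agent.Y587.GP.Chi.t_CHI

theorem x_ORT : Pool.Agent.Y969.SM.S_ORT := Pool.Agent.Y953.SX.t_ORT Pool.Agent.Y379.GP.t_SP

theorem x_CRA : Pool.Agent.Y969.SM.S_CRA := Pool.Agent.Y620.SX.t_CRA Pool.Agent.Y587.GP.t_V

theorem x_WIN : Pool.Agent.Y969.SM.S_WIN := by
  obtain ⟨k₀, hFA⟩ := Pool.Agent.Y739.SX.t_FA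
  have hk : 2 ≤ max k₀ 2 := le_max_right _ _
  have fa : S_FA (max k₀ 2) := hFA _ (le_max_left _ _)
  generalize max k₀ 2 = k at hk fa
  have fb : S_FB k := Pool.Agent.Y429.SX.t_FB Pool.Agent.Y360.SX.t_F8 k hk
  have f5 : ∀ᶠ T : ℝ in atTop, ∀ κ : ℕ, Rng T κ →
      ∫ t in Set.Ioi (0:ℝ), om κ (κ / T) t * |F0 k T t| ≤ Real.log T ^ 5 ∧
      IntegrableOn (fun t => om κ (κ / T) t * |F0 k T t|) (Set.Ioi 0) := by
    obtain ⟨C, hC, h⟩ := fa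
    filter_upwards [h, Real.tendsto_log_atTop.eventually_ge_atTop (max 1 C)] with T hT hL κ hκ
    obtain ⟨-, i2, -, -, b, -⟩ := hT κ hκ
    have h1 : 1 ≤ Real.log T := (le_max_left _ _).trans hL
    have h2 : C ≤ Real.log T := (le_max_right _ _).trans hL
    refine ⟨b.trans ?_, i2⟩
    calc C * Real.log T ^ 4 ≤ Real.log T * Real.log T ^ 4 := by gcongr
      _ = Real.log T ^ 5 := by ring
  have w1 := Pool.Agent.Y246.SX.t_W1 k fa fb t_SM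
  have w2 := Pool.Agent.Y448.SX.t_W2 k fb f5 x_AFE t_SM
  have mn := Pool.Agent.Y547.SX.t_MIN k Pool.Agent.Y780.SX.t_BLK fb f5
    (Pool.Agent.Y125.GP.t_LSW Pool.Agent.Y379.GP.t_SP) (Pool.Agent.Y545.GP.t_CR Pool.Agent.Y587.GP.t_V)
  have ub0 := Pool.Agent.Y809.SX.t_UB0 Pool.Agent.Y726.SX.t_TWC Pool.Agent.TH384.N4_FM.t_FM
    Pool.Agent.Y369.SX.t_ARS k hk
  have ub := Pool.Agent.Y4.SX.t_UB k ub0 fb
  have as_ := Pool.Agent.Y604.SX.t_AS Pool.Agent.Y726.SX.t_TWC Pool.Agent.TH384.N4_FM.t_FM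
    Pool.Agent.TH806.N4.a_ING Pool.Agent.Y901.SX.t_A1 Pool.Agent.Y54.SX.t_A2 ⟨k, hk, fa⟩
  have t0 := Pool.Agent.Y81.SX.T0.t_T0 k ub as_ fa x_ORT Pool.Agent.Y76.SX.t_ARI Pool.Agent.Y76.SX.t_W2B fb
  have tl2 := Pool.Agent.Y293.SX.t_TL2 k ub x_ORT Pool.Agent.Y76.SX.t_ARI fb
  have tay := Pool.Agent.Y670.SX.t_TAY k x_CRA Pool.Agent.Y812.SX.t_OMX x_ORT fa fb
  exact t_WIN k fb w1 w2 mn tay tl2 t0 Pool.Agent.Y77.SX.t_CTW Pool.Agent.Y587.GP.t_V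

theorem x_SHP : Pool.Agent.Y969.SM.S_SHP := by
  obtain ⟨k₀, hFA⟩ := Pool.Agent.Y739.SX.t_FA
  obtain ⟨C, hC, h⟩ := hFA k₀ le_rfl
  refine Pool.Agent.Y475.SX.t_SHP t_SM Pool.Agent.Y77.SX.t_CTW ⟨C, hC, ?_⟩
  filter_upwards [h] with T hT κ hκ
  exact (hT κ hκ).2.2.2.2.2

theorem x_EUL : Pool.Agent.Y969.SM.S_EUL :=
  Pool.Agent.Y978.SX.t_EUL Pool.Agent.Y852.SX.t_LOC (Pool.Agent.Y983.SX.EUT.t_EUT Pool.Agent.Y686.SX.t_LSM)
    x_ORT Pool.Agent.Y76.SX.t_ARI Pool.Agent.Y76.SX.t_W2B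

theorem x_MAIN : Pool.Agent.Y969.SM.S_MAIN := t_MAIN x_WIN x_SHP x_EUL Pool.Agent.Y77.SX.t_CTW

theorem x_AA : Pool.Agent.Y969.SM.S_AA := Pool.Agent.Y81.SX.AAP.t_AA Pool.Agent.Y852.SX.t_LOC

theorem x_REL : Pool.Agent.Y969.SM.S_REL :=
  t_REL x_MAIN (Pool.Agent.Y781.SX.t_LB Pool.Agent.Y852.SX.t_LOC)
    (Pool.Agent.Y514.SX.t_ZE x_AA Pool.Agent.Y96.SX.t_ZM)

end Pool.Agent.J4H26.SZ
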