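import Pool.Agent.J4H26.SZ.Led
import Pool.Agent.N879.PZ.Aa1
import Pool.Agent.N879.PZ.Afx
import Pool.Agent.N879.PZ.Asm4
import Pool.Agent.N879.PZ.Crd
import Pool.Agent.N879.PZ.Ctg
import Pool.Agent.N879.PZ.Eul1
import Pool.Agent.N879.PZ.Eut1
import Pool.Agent.N879.PZ.Gcm
import Pool.Agent.N879.PZ.Ker
import Pool.Agent.N879.PZ.Kh
import Pool.Agent.N879.PZ.Kl
import Pool.Agent.N879.PZ.Lb1
import Pool.Agent.N879.PZ.Lc
import Pool.Agent.N879.PZ.Loc1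
import Pool.Agent.N879.PZ.Lt
import Pool.Agent.N879.PZ.M4l
import Pool.Agent.N879.PZ.Msq
import Pool.Agent.N879.PZ.Sml
import Pool.Agent.N879.PZ.Telc
import Pool.Agent.N879.PZ.Tw
import Pool.Agent.N879.PZ.Win
import Pool.Agent.N879.PZ.Ze1

set_option autoImplicit false

/-! Shifted moments with short shifts: all the parts of project PZ together. -/

namespace Pool.Agent.J4H26.SZ

open Pool.Agent.N879.PZ

theorem z_KH : S_KH := t_KH t_CRD t_LC t_LT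
theorem z_KER : S_KER := t_KER t_AFX z_KH t_KL
theorem z_M4L : S_M4L := t_M4L t_AFX t_CRD t_LT
theorem z_WIN : S_WIN := t_WIN t_LC
theorem z_GCM : S_GCM := t_GCM z_M4L
theorem z_SML : S_SML := t_SML t_FUB z_M4L
theorem z_GCD : S_GCD := t_GCD t_FUB z_M4L z_WIN z_GCM
theorem z_TW : S_TW := t_TW t_AFX t_CRD
theorem z_LED : S_LED := t_LED t_FUB t_CTG z_WIN z_TW
theorem z_MSQ : S_MSQ := t_MSQ z_TW
theorem z_EUT1 : S_EUT1 := t_EUT1 t_LSM1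
theorem z_EUL1 : S_EUL1 := t_EUL1 t_LOC1 z_EUT1
theorem z_LB1 : S_LB1 := t_LB1 t_LOC1
theorem z_AA1 : S_AA1 := t_AA1 t_LOC1
theorem z_ZE1 : S_ZE1 := t_ZE1 z_AA1
theorem z_MEAN2 : S_MEAN2 :=
  t_MEAN2 z_KER t_TELC t_CTG z_M4L z_WIN z_GCM z_SML z_GCD z_LED z_MSQ
theorem z_MAIN2 : S_MAIN2 := t_MAIN2 t_CTG z_MEAN2 z_EUL1 z_LB1 z_ZE1

end Pool.Agent.J4H26.SZ
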