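import Pool.Agent.N879.PZ.Sml
import Pool.Agent.N879.PZ.Asm1

set_option autoImplicit false

/-! Shifted moments: the leading term of the model (statement `S_LED` of project PZ). -/

namespace Pool.Agent.J4H26.SZ

open Complex Filter Topology MeasureTheory Set
open Pool.Agent.Y969.GP (ff V V1 ht lam PS FR co cr PX mk mB)
open Pool.Agent.Y969.SM (ff_cont mB_int)
open Pool.Agent.N879.PZ Pool.Agent.N879.PZ.Smlaux

noncomputable section

/-- telescoping -/
lemma tele {n : ℕ} (f g : Fin n → ℂ) :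
    ∏ j, f j - ∏ j, g j = ∑ i, ∏ j, (if j < i then g j else if j = i then f j - g j else f j) := by
  have h := Finset.prod_sub_ordered (Finset.univ : Finset (Fin n)) f (fun j => f j - g j)
  simp only [sub_sub_cancel] at h
  rw [h, sub_sub_cancel]
  refine Finset.sum_congr rfl fun i _ => ?_
  have e1 : ∀ j : Fin n, (if j < i then g j else if j = i then f j - g j else f j) =
      (if j = i then f j - g j else 1) * (if j < i then g j else 1) * (if i < j then f j else 1) := by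
    intro j
    rcases lt_trichotomy j i with h1 | h1 | h1
    · simp [h1, h1.ne, h1.not_gt]
    · simp [h1]
    · simp [h1, h1.ne', h1.not_gt]
  rw [Finset.prod_congr rfl fun j _ => e1 j, Finset.prod_mul_distrib, Finset.prod_mul_distrib,
    Finset.prod_ite_eq' Finset.univ i, if_pos (Finset.mem_univ i), Finset.prod_filter, Finset.prod_filter]

lemma prod_one_ne {n : ℕ} (i : Fin n) (A B : ℝ) :
    ∏ j : Fin n, (if j = i then B else A) = B * A ^ (n - 1) := by
  rw [← Finset.mul_prod_erase Finset.univ _ (Finset.mem_univ i), if_pos rfl]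
  congr 1
  rw [Finset.prod_congr rfl fun j hj => if_neg (Finset.ne_of_mem_erase hj), Finset.prod_const,
    Finset.card_erase_of_mem (Finset.mem_univ i), Finset.card_univ, Fintype.card_fin]

/-- the second moment -/
lemma sec (hTW : S_TW) : ∃ C : ℝ, 0 < C ∧ ∀ T a : ℝ, 3 ≤ T → T ^ (7 / 8 : ℝ) ≤ a → a ≤ T →
    ∫ t in Icc a T, ff t ≤ C * T * Real.log T := by
  obtain ⟨C, hC, h⟩ := hTW
  refine ⟨3 * C + 1, by positivity, fun T a hT ha haT => ?_⟩
  have hL := log_one hT
  have hT0 : 0 < T := by linarith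
  have h1 : (1 : ℝ) ≤ T ^ (1 / 16 : ℝ) := Real.one_le_rpow (by linarith) (by norm_num)
  have hht : ht (1, 1) = 1 := by unfold Pool.Agent.Y969.GP.ht; norm_num
  have h2 := h T a (1, 1) hT ha haT le_rfl le_rfl (by norm_num) (by rw [hht]; exact h1)
  have hee : ∀ t : ℝ, ee t (1, 1) = 1 := by
    intro t
    unfold ee Pool.Agent.Y969.GP.lam
    simp
  simp only [hee, mul_one, hht, Real.sqrt_one, inv_one, Real.log_one, add_zero] at h2
  have e1 : (∫ t in a..T, (ff t : ℂ)) = ((∫ t in a..T, ff t : ℝ) : ℂ) := intervalIntegral.integral_ofReal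
  rw [e1, ← ofReal_sub, Complex.norm_real, Real.norm_eq_abs] at h2
  have h3 : ∫ t in Icc a T, ff t = ∫ t in a..T, ff t := by
    rw [intervalIntegral.integral_of_le haT, integral_Icc_eq_integral_Ioc]
  rw [h3]
  have h4 := (abs_le.mp h2).2
  have h5 : a / T ≤ 1 := by rw [div_le_one hT0]; exact haT
  have h6 : T ^ (15 / 16 : ℝ) ≤ T := by
    calc T ^ (15 / 16 : ℝ) ≤ T ^ (1 : ℝ) := Real.rpow_le_rpow_of_exponent_le (by linarith) (by norm_num)
      _ = T := Real.rpow_one T
  have h7 : C * T * (1 + a / T * Real.log T) ≤ C * T * (2 * Real.log T) := by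
    refine mul_le_mul_of_nonneg_left ?_ (by positivity)
    have : a / T * Real.log T ≤ 1 * Real.log T := mul_le_mul_of_nonneg_right h5 (by linarith)
    linarith
  have h8 : C * T ^ (15 / 16 : ℝ) ≤ C * T * Real.log T := by
    calc C * T ^ (15 / 16 : ℝ) ≤ C * T := by gcongr
      _ ≤ C * T * Real.log T := le_mul_of_one_le_right (by positivity) hL
  nlinarith

theorem t_LED (hFUB : S_FUB) (hCTG : S_CTG) (hWIN : S_WIN) (hTW : S_TW) : S_LED := by
  obtain ⟨C1, hC1, hWIN⟩ := hWIN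
  obtain ⟨C2, hC2, hsec⟩ := sec hTW
  intro n
  refine ⟨n * (√C1) ^ n * C2 + 1, by positivity, ?_⟩
  intro T U a N hP
  have hWN := hWIN T U a N hP
  obtain ⟨hT, hU, hUT, ha, haT, hN1, hNT, hNU⟩ := hP
  have hL := log_one hT
  have ha1 := one_le_a hT ha
  have hU0 : 0 < U := by linarith
  have hT0 : 0 < T := by linarith
  have ha0 : 0 < a := by linarith
  set L := Real.log T with hLdef
  have hNL0 : 0 ≤ Real.log N := Real.log_natCast_nonneg N
  set lN := 1 + Real.log N with hlN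
  have hlN1 : 1 ≤ lN := by linarith
  set R := 1 + Real.log (T / a) with hR
  have hR1 : 1 ≤ R := by
    have : 0 ≤ Real.log (T / a) := Real.log_nonneg (by rw [le_div_iff₀ ha0]; linarith)
    linarith
  have hs0 : 0 ≤ √C1 := Real.sqrt_nonneg _
  have hs2 := Real.sq_sqrt hC1.le
  -- the functions
  set G : ℝ → ℂ := fun u => (L : ℂ) * P1 N u with hG
  have hGc : Continuous G := continuous_const.mul (P1_cont N)
  have hFc : Continuous (DN N) := Smlaux.DN_cont N
  set H : Fin n → Fin n → ℝ → ℂ := fun i j =>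
    if j < i then G else if j = i then (fun u => DN N u - G u) else DN N with hH
  have hHc : ∀ i j, Continuous (H i j) := by
    intro i j
    simp only [hH]
    split_ifs
    · exact hGc
    · exact hFc.sub hGc
    · exact hFc
  have pt : ∀ c : Fin n → ℝ, ∀ t : ℝ, (∏ j : Fin n, DN N (t + c j) -
      ∏ j : Fin n, ((L : ℂ) * P1 N (t + c j))) = ∑ i, ∏ j, H i j (t + c j) := by
    intro c t
    rw [tele]
    refine Finset.sum_congr rfl fun i _ => Finset.prod_congr rfl fun j _ => ?_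
    simp only [hH]
    split_ifs <;> rfl
  have hcontH : ∀ i (c : Fin n → ℝ), Continuous fun t : ℝ => (ff t : ℂ) * ∏ j, H i j (t + c j) := by
    intro i c
    refine (Complex.continuous_ofReal.comp ff_cont).mul (continuous_finsetProd _ fun j _ => ?_)
    exact (hHc i j).comp (by fun_prop)
  have split : ∀ c : Fin n → ℝ, (∫ t in Icc a T, (ff t : ℂ) * (∏ j : Fin n, DN N (t + c j) -
      ∏ j : Fin n, ((L : ℂ) * P1 N (t + c j)))) =
      ∑ i, ∫ t in Icc a T, (ff t : ℂ) * ∏ j, H i j (t + c j) := by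
    intro c
    rw [← integral_finsetSum _ fun i _ => ((hcontH i c).integrableOn_Icc (a := a) (b := T))]
    refine integral_congr_ae (Eventually.of_forall fun t => ?_)
    simp only [pt c t, Finset.mul_sum]
  -- the windows
  have w1 : ∀ t ∈ Icc a T, ∫ c in (0:ℝ)..U, ‖G (t + c)‖ ≤ U * (√C1 * lN ^ 2 * L) := by
    intro t ht
    refine cs_int hU0.le (f := fun c => ‖G (t + c)‖) (hGc.comp (by fun_prop)).norm (by positivity) ?_
    have e : ∀ c : ℝ, ‖G (t + c)‖ ^ 2 = L ^ 2 * ‖P1 N (t + c)‖ ^ 2 := by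
      intro c
      simp only [hG]
      rw [norm_mul, mul_pow, Complex.norm_real, Real.norm_of_nonneg (by linarith)]
    simp only [e]
    rw [intervalIntegral.integral_const_mul]
    calc L ^ 2 * ∫ c in (0:ℝ)..U, ‖P1 N (t + c)‖ ^ 2 ≤ L ^ 2 * (C1 * U * lN ^ 2) :=
          mul_le_mul_of_nonneg_left (hWN t ht.1 ht.2).1 (by positivity)
      _ ≤ L ^ 2 * (C1 * U * lN ^ 4) := by
          have : lN ^ 2 ≤ lN ^ 4 := pow_le_pow_right₀ hlN1 (by norm_num)
          gcongr
      _ = U * (√C1 * lN ^ 2 * L) ^ 2 := by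
          rw [show (√C1 * lN ^ 2 * L) ^ 2 = (√C1) ^ 2 * lN ^ 4 * L ^ 2 by ring, hs2]; ring
  have w2 : ∀ t ∈ Icc a T, ∫ c in (0:ℝ)..U, ‖DN N (t + c)‖ ≤ U * (√C1 * lN ^ 2 * L) := by
    intro t ht
    refine cs_int hU0.le (f := fun c => ‖DN N (t + c)‖) (hFc.comp (by fun_prop)).norm (by positivity) ?_
    calc ∫ c in (0:ℝ)..U, ‖DN N (t + c)‖ ^ 2 ≤ C1 * U * lN ^ 4 * L ^ 2 := (hWN t ht.1 ht.2).2.1
      _ = U * (√C1 * lN ^ 2 * L) ^ 2 := by
          rw [show (√C1 * lN ^ 2 * L) ^ 2 = (√C1) ^ 2 * lN ^ 4 * L ^ 2 by ring, hs2]; ring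
  have w3 : ∀ t ∈ Icc a T, ∫ c in (0:ℝ)..U, ‖DN N (t + c) - G (t + c)‖ ≤ U * (√C1 * lN ^ 2 * R) := by
    intro t ht
    refine cs_int hU0.le (f := fun c => ‖DN N (t + c) - G (t + c)‖)
      ((hFc.comp (by fun_prop)).sub (hGc.comp (by fun_prop))).norm (by positivity) ?_
    calc ∫ c in (0:ℝ)..U, ‖DN N (t + c) - G (t + c)‖ ^ 2 ≤ C1 * U * lN ^ 4 * R ^ 2 := (hWN t ht.1 ht.2).2.2
      _ = U * (√C1 * lN ^ 2 * R) ^ 2 := by
          rw [show (√C1 * lN ^ 2 * R) ^ 2 = (√C1) ^ 2 * lN ^ 4 * R ^ 2 by ring, hs2]; ring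
  set Q1 := U * (√C1 * lN ^ 2 * L) with hQ1
  set Q2 := U * (√C1 * lN ^ 2 * R) with hQ2
  have hQ1n : 0 ≤ Q1 := by positivity
  have hQ2n : 0 ≤ Q2 := by positivity
  -- each term
  have term : ∀ i : Fin n, ∫ c, ‖∫ t in Icc a T, (ff t : ℂ) * ∏ j, H i j (t + c j)‖ ∂(mB n 0 U) ≤
      (∫ t in Icc a T, ff t) * (Q2 * Q1 ^ (n - 1)) := by
    intro i
    refine (hFUB n a T U (Icc a T) (fun t => (ff t : ℂ)) (H i) haT hU0 measurableSet_Icc (Subset.refl _)
      (ff_Wb a T) (hHc i)).trans ?_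
    rw [← integral_mul_const]
    refine setIntegral_mono_on ?_ ((ff_cont.mul continuous_const).integrableOn_Icc) measurableSet_Icc
      fun t ht => ?_
    · refine (Continuous.integrableOn_Icc ?_)
      refine (Complex.continuous_ofReal.comp ff_cont).norm.mul (continuous_finsetProd _ fun j _ => ?_)
      exact wcont (hHc i j) U
    · simp only [nff]
      refine mul_le_mul_of_nonneg_left ?_ (ff_nonneg t)
      rw [← prod_one_ne i Q1 Q2]
      refine Finset.prod_le_prod (fun j _ => intervalIntegral.integral_nonneg hU0.le fun c _ => norm_nonneg _)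
        fun j _ => ?_
      simp only [hH]
      rcases lt_trichotomy j i with h1 | h1 | h1
      · simp only [h1, h1.ne, if_true, if_false]
        exact w1 t ht
      · simp only [h1, lt_irrefl, if_false, if_true]
        exact w3 t ht
      · simp only [h1.not_gt, h1.ne', if_false]
        exact w2 t ht
  have cont : ∀ i : Fin n, Continuous fun c : Fin n → ℝ =>
      ∫ t in Icc a T, (ff t : ℂ) * ∏ j, H i j (t + c j) := fun i =>
    hCTG n a T (Icc a T) (fun t => (ff t : ℂ)) (H i) haT measurableSet_Icc (Subset.refl _) (ff_Wb a T) (hHc i)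
  have h1 : ∫ c, ‖∫ t in Icc a T, (ff t : ℂ) * (∏ j : Fin n, DN N (t + c j) -
      ∏ j : Fin n, ((L : ℂ) * P1 N (t + c j)))‖ ∂(mB n 0 U) ≤
      ∑ i : Fin n, ∫ c, ‖∫ t in Icc a T, (ff t : ℂ) * ∏ j, H i j (t + c j)‖ ∂(mB n 0 U) := by
    rw [← integral_finsetSum _ fun i _ => mB_int (cont i).norm 0 U]
    refine integral_mono_of_nonneg (Eventually.of_forall fun c => norm_nonneg _)
      (integrable_finsetSum _ fun i _ => mB_int (cont i).norm 0 U) (Eventually.of_forall fun c => ?_)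
    simp only [split c]
    exact norm_sum_le _ _
  refine h1.trans ((Finset.sum_le_sum fun i _ => term i).trans ?_)
  rw [Finset.sum_const, Finset.card_univ, Fintype.card_fin, nsmul_eq_mul]
  rcases Nat.eq_zero_or_pos n with hn | hn
  · subst hn
    simp only [Nat.cast_zero, zero_mul]
    positivity
  have h2 := hsec T a hT ha haT
  have e1 : Q2 * Q1 ^ (n - 1) = U ^ n * (√C1) ^ n * lN ^ (2 * n) * L ^ (n - 1) * R := by
    obtain ⟨m, rfl⟩ : ∃ m, n = m + 1 := ⟨n - 1, by omega⟩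
    have e2 : (U * (√C1 * lN ^ 2 * L)) ^ m = U ^ m * √C1 ^ m * (lN ^ 2) ^ m * L ^ m := by
      rw [mul_pow, mul_pow, mul_pow]; ring
    rw [Nat.add_sub_cancel, hQ1, hQ2, pow_mul, e2, pow_succ, pow_succ, pow_succ]
    ring
  have hLn : L * L ^ (n - 1) = L ^ n := by
    rw [← pow_succ', Nat.sub_add_cancel hn]
  rw [e1]
  calc (n : ℝ) * ((∫ t in Icc a T, ff t) * (U ^ n * (√C1) ^ n * lN ^ (2 * n) * L ^ (n - 1) * R))
      ≤ (n : ℝ) * ((C2 * T * L) * (U ^ n * (√C1) ^ n * lN ^ (2 * n) * L ^ (n - 1) * R)) := by gcongr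
    _ = (n * (√C1) ^ n * C2) * lN ^ (2 * n) * R * (L * L ^ (n - 1)) * T * U ^ n := by ring
    _ = (n * (√C1) ^ n * C2) * lN ^ (2 * n) * R * L ^ n * T * U ^ n := by rw [hLn]
    _ ≤ (n * (√C1) ^ n * C2 + 1) * lN ^ (2 * n) * R * L ^ n * T * U ^ n := by
        gcongr
        linarith

end

end Pool.Agent.J4H26.SZ
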