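import Pool.Agent.J4H26.SZ.AllZ

set_option autoImplicit false

/-! The second moment of zeta: the statement `S_SM` of project GP. -/

namespace Pool.Agent.J4H26.SZ

open Complex Filter Topology MeasureTheory Set
open Pool.Agent.Y969.GP (ff)
open Pool.Agent.Y969.SM (ff_cont)
open Pool.Agent.N879.PZ Pool.Agent.N879.PZ.Smlaux

noncomputable section

theorem t_SM : Pool.Agent.Y969.GP.S_SM := by
  obtain ⟨C2, hC2, hsec⟩ := sec z_TW
  obtain ⟨C4, A, hC4, h4⟩ := z_M4L
  set e : ℝ := 1 / (8 * ((A : ℝ) + 1)) with he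
  have he0 : 0 < e := by positivity
  set K : ℝ := (1 / e) ^ A with hK
  have hK0 : 0 < K := by positivity
  refine ⟨4 * (K + C4 + C2), by positivity, fun T hT => ?_⟩
  set X : ℝ := 2 * T with hX
  have hX3 : 3 ≤ X := by linarith
  have hX0 : 0 < X := by linarith
  have hX1 : 1 ≤ X := by linarith
  have hL := log_one hX3
  set a : ℝ := X ^ (7 / 8 : ℝ) with ha
  have ha0 : 0 < a := Real.rpow_pos_of_pos hX0 _
  have haX : a ≤ X := by
    calc a ≤ X ^ (1 : ℝ) := Real.rpow_le_rpow_of_exponent_le hX1 (by norm_num)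
      _ = X := Real.rpow_one X
  have h1 := hsec X a hX3 le_rfl haX
  have h5 := h4 X hX3
  set L := Real.log X with hLd
  set M : ℝ := L ^ A with hM
  have hM1 : 1 ≤ M := one_le_pow₀ hL
  have hMK : M * a ≤ K * X := by
    have q1 : L ≤ X ^ e / e := Real.log_le_rpow_div hX0.le he0
    have q2 : M ≤ K * (X ^ e) ^ A := by
      calc M ≤ (X ^ e / e) ^ A := pow_le_pow_left₀ (by linarith) q1 A
        _ = K * (X ^ e) ^ A := by rw [hK, div_eq_mul_one_div, mul_pow]; ring
    have q3 : (X ^ e) ^ A ≤ X ^ (1 / 8 : ℝ) := by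
      rw [← Real.rpow_natCast, ← Real.rpow_mul hX0.le]
      refine Real.rpow_le_rpow_of_exponent_le hX1 ?_
      rw [he, one_div_mul_eq_div, div_le_div_iff₀ (by positivity) (by norm_num)]
      nlinarith [Nat.cast_nonneg (α := ℝ) A]
    calc M * a ≤ (K * X ^ (1 / 8 : ℝ)) * X ^ (7 / 8 : ℝ) := by
          refine mul_le_mul (q2.trans (mul_le_mul_of_nonneg_left q3 hK0.le)) le_rfl ha0.le (by positivity)
      _ = K * X := by
          rw [mul_assoc, ← Real.rpow_add hX0]
          norm_num
  have s1 : ∫ u in (0:ℝ)..a, ff u ≤ a * M + C4 * X := by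
    have hpt : ∀ u : ℝ, ff u ≤ M + M⁻¹ * ff u ^ 2 := by
      intro u
      have hM0 : 0 < M := by linarith
      have hf := ff_nonneg u
      rcases le_total (ff u) M with h | h
      · have : 0 ≤ M⁻¹ * ff u ^ 2 := by positivity
        linarith
      · have : ff u ≤ M⁻¹ * ff u ^ 2 := by
          rw [← div_eq_inv_mul, le_div_iff₀ hM0, pow_two]
          exact mul_le_mul_of_nonneg_left h hf
        linarith
    have i1 : IntervalIntegrable (fun u => M + M⁻¹ * ff u ^ 2) volume 0 a :=
      (continuous_const.add (continuous_const.mul (ff_cont.pow 2))).intervalIntegrable _ _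
    have m1 := intervalIntegral.integral_mono_on ha0.le (ff_cont.intervalIntegrable 0 a) i1 fun u _ => hpt u
    refine m1.trans ?_
    have j1 : IntervalIntegrable (fun _ : ℝ => M) volume 0 a := continuous_const.intervalIntegrable _ _
    have j2 : IntervalIntegrable (fun u => M⁻¹ * ff u ^ 2) volume 0 a :=
      (continuous_const.mul (ff_cont.pow 2)).intervalIntegrable _ _
    rw [intervalIntegral.integral_add j1 j2, intervalIntegral.integral_const,
      intervalIntegral.integral_const_mul, sub_zero, smul_eq_mul]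
    have m2 : ∫ u in (0:ℝ)..a, ff u ^ 2 ≤ C4 * X * M := by
      refine le_trans ?_ h5
      exact intervalIntegral.integral_mono_interval le_rfl ha0.le haX
        (Eventually.of_forall fun u => sq_nonneg _) ((ff_cont.pow 2).intervalIntegrable _ _)
    have m3 : M⁻¹ * ∫ u in (0:ℝ)..a, ff u ^ 2 ≤ C4 * X := by
      rw [inv_mul_le_iff₀ (by linarith)]
      linarith
    linarith
  have s2 : ∫ u in a..X, ff u ≤ C2 * X * L := by
    have e1 : ∫ t in Icc a X, ff t = ∫ t in a..X, ff t := by
      rw [intervalIntegral.integral_of_le haX, integral_Icc_eq_integral_Ioc]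
    rw [← e1]
    exact h1
  have s3 : ∫ u in (0:ℝ)..X, ff u ≤ (K + C4 + C2) * X * L := by
    rw [← intervalIntegral.integral_add_adjacent_intervals (ff_cont.intervalIntegrable 0 a)
      (ff_cont.intervalIntegrable a X)]
    have q1 : a * M + C4 * X ≤ (K + C4) * X * L := by
      have : (K + C4) * X ≤ (K + C4) * X * L := le_mul_of_one_le_right (by positivity) hL
      nlinarith
    nlinarith
  refine s3.trans ?_
  have hlT : L ≤ 2 * Real.log T := by
    have hT0 : 0 < T := by linarith
    have : Real.log 2 ≤ Real.log T := Real.log_le_log (by norm_num) hT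
    rw [hLd, hX, Real.log_mul (by norm_num) hT0.ne']
    linarith
  calc (K + C4 + C2) * X * L ≤ (K + C4 + C2) * X * (2 * Real.log T) := by gcongr
    _ = 4 * (K + C4 + C2) * T * Real.log T := by rw [hX]; ring

end

end Pool.Agent.J4H26.SZ
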