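import Pool.Agent.J4H26.SZ.Sm2
import Pool.Agent.J4H26.EQ.Win

set_option autoImplicit false

/-! The mean square of zeta on the lines right of the critical line: the statement `S_ZL` of project GP. -/

namespace Pool.Agent.J4H26.SZ

open Complex Filter Topology MeasureTheory Set
open Pool.Agent.Y969.GP (ff)
open Pool.Agent.Y969.SM (ff_cont)
open Pool.Agent.H306R2 Pool.Agent.W184 Pool.Agent.J4H26.EQ

noncomputable section

theorem zl_pt {Δ t : ℝ} (h0 : 0 < Δ) (h1 : Δ ≤ 3 / 2) (ht : 1 ≤ t) :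
    ‖riemannZeta (((1 / 2 + Δ : ℝ) : ℂ) + t * I)‖ ^ 2 ≤
      5 * (5 / 2) ^ 12 * ∫ w : ℝ, (KP Δ w * ((1 + w ^ 2)⁻¹) ^ 6) *
        ‖riemannZeta (((1 / 2 : ℝ) : ℂ) + (t + w : ℝ) * I)‖ ^ 2 := by
  set c : ℂ := ((1 / 2 : ℝ) : ℂ) + t * I with hc
  have hcre : c.re = 1 / 2 := by simp [hc]
  set F : ℂ → ℂ := fun z => Zt z / z * (1 / (1 + z - c)) ^ 6 with hF
  have hne : ∀ z : ℂ, 0 < z.re → z ≠ 0 := by
    rintro z hz rfl; simp at hz
  have hne2 : ∀ z : ℂ, 0 < z.re → 1 + z - c ≠ 0 := by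
    intro z hz h
    have := congrArg Complex.re h
    simp [hcre] at this
    linarith
  have hFd : ∀ z : ℂ, 0 < z.re → DifferentiableAt ℂ F z := by
    intro z hz
    refine ((Zt_differentiableAt hz).div differentiableAt_id (hne z hz)).mul ?_
    refine DifferentiableAt.pow ?_ _
    exact (differentiableAt_const _).div (by fun_prop) (hne2 z hz)
  have hg1 : ∀ z : ℂ, 1 / 2 ≤ z.re → 1 ≤ ‖1 + z - c‖ := by
    intro z hz
    have := Complex.re_le_norm (1 + z - c)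
    simp only [Complex.add_re, Complex.sub_re, Complex.one_re, hcre] at this
    linarith
  have hFn : ∀ z : ℂ, ‖F z‖ = ‖Zt z / z‖ * (1 / ‖1 + z - c‖) ^ 6 := by
    intro z
    rw [hF]
    simp only
    rw [norm_mul, norm_pow, norm_div (1:ℂ), norm_one]
  have hZt : ∀ z : ℂ, 0 < z.re → z ≠ 1 → Zt z / z = (z - 1) / z * riemannZeta z := by
    intro z hz h1
    rw [← zeta_eq_pos hz h1]
    ring
  set B : ℝ := 6 * (2 + ‖c - 1‖) ^ 2 with hB
  have hb : ∀ z : ℂ, 1 / 2 ≤ z.re → ‖F z‖ ≤ B := by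
    intro z hz
    have hgz := hg1 z hz
    have hgz0 : 0 < ‖1 + z - c‖ := by linarith
    have hpw : (1 / ‖1 + z - c‖) ^ 6 ≤ (1 / ‖1 + z - c‖) ^ 2 := by
      refine pow_le_pow_of_le_one (by positivity) ?_ (by norm_num)
      rw [div_le_one hgz0]; exact hgz
    have hzn : 1 / 2 ≤ ‖z‖ := hz.trans (Complex.re_le_norm z)
    have hzp : 0 < ‖z‖ := by linarith
    rw [hFn]
    have b1 : ‖Zt z / z‖ ≤ 6 * (‖z‖ + 1) ^ 2 := by
      rw [norm_div, div_le_iff₀ hzp]
      have := Zt_norm_le hz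
      nlinarith [sq_nonneg (‖z‖ + 1)]
    have b3 : ‖z‖ + 1 ≤ ‖1 + z - c‖ * (2 + ‖c - 1‖) := by
      have a1 : ‖z‖ ≤ ‖1 + z - c‖ + ‖c - 1‖ := by
        have := norm_add_le (1 + z - c) (c - 1)
        rwa [show 1 + z - c + (c - 1) = z by ring] at this
      nlinarith [norm_nonneg (c - 1)]
    have b4 : (‖z‖ + 1) ^ 2 * (1 / ‖1 + z - c‖) ^ 2 ≤ (2 + ‖c - 1‖) ^ 2 := by
      rw [← mul_pow]
      refine pow_le_pow_left₀ (by positivity) ?_ _
      rw [mul_one_div, div_le_iff₀ hgz0]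
      linarith
    calc ‖Zt z / z‖ * (1 / ‖1 + z - c‖) ^ 6 ≤ (6 * (‖z‖ + 1) ^ 2) * (1 / ‖1 + z - c‖) ^ 2 := by gcongr
      _ = 6 * ((‖z‖ + 1) ^ 2 * (1 / ‖1 + z - c‖) ^ 2) := by ring
      _ ≤ B := by rw [hB]; gcongr
  have hmain := hp_ineq (F := F) (b := 1 / 2) (t := t) (C := B) (p := 2) h0 (by norm_num) ?_ ?_ ?_
  · simp only [Real.rpow_two] at hmain
    have e1 : (((1 / 2 : ℝ) : ℂ) + Δ + t * I) = (((1 / 2 + Δ : ℝ) : ℂ) + t * I) := by push_cast; ring
    rw [e1] at hmain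
    set z : ℂ := ((1 / 2 + Δ : ℝ) : ℂ) + t * I with hz
    have hre : z.re = 1 / 2 + Δ := by simp [hz]
    have him : z.im = t := by simp [hz]
    have hz1 : z ≠ 1 := by
      intro h
      have := congrArg Complex.im h
      rw [him] at this
      simp at this
      linarith
    have hrat : 1 / 5 ≤ ‖(z - 1) / z‖ ^ 2 := by
      rw [norm_div, div_pow, Complex.sq_norm, Complex.sq_norm, Complex.normSq_apply, Complex.normSq_apply]
      simp only [Complex.sub_re, Complex.sub_im, Complex.one_re, Complex.one_im, hre, him]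
      rw [div_le_div_iff₀ (by norm_num) (by nlinarith)]
      nlinarith [sq_nonneg (Δ - 1 / 2)]
    have e2 : ‖1 + z - c‖ = 1 + Δ := by
      rw [hc, hz, show 1 + (((1 / 2 + Δ : ℝ) : ℂ) + t * I) - (((1 / 2 : ℝ) : ℂ) + t * I) =
        ((1 + Δ : ℝ) : ℂ) by push_cast; ring, Complex.norm_real, Real.norm_of_nonneg (by linarith)]
    have hlow : (1 / 5) * (2 / 5) ^ 12 * ‖riemannZeta z‖ ^ 2 ≤ ‖F z‖ ^ 2 := by
      rw [hFn, hZt z (by rw [hre]; linarith) hz1, norm_mul, e2]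
      have g1 : (2 / 5 : ℝ) ≤ 1 / (1 + Δ) := by
        rw [div_le_div_iff₀ (by norm_num) (by linarith)]
        linarith
      have g2 : (2 / 5 : ℝ) ^ 12 ≤ (1 / (1 + Δ)) ^ 12 := pow_le_pow_left₀ (by norm_num) g1 12
      calc (1 / 5) * (2 / 5) ^ 12 * ‖riemannZeta z‖ ^ 2
          ≤ ‖(z - 1) / z‖ ^ 2 * (1 / (1 + Δ)) ^ 12 * ‖riemannZeta z‖ ^ 2 := by gcongr
        _ = _ := by ring
    have hint : ∫ w : ℝ, KP Δ w * ‖F (((1 / 2 : ℝ) : ℂ) + ((t + w : ℝ) : ℂ) * I)‖ ^ 2 =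
        ∫ w : ℝ, (KP Δ w * ((1 + w ^ 2)⁻¹) ^ 6) *
          ‖riemannZeta (((1 / 2 : ℝ) : ℂ) + (t + w : ℝ) * I)‖ ^ 2 := by
      refine integral_congr_ae (Filter.Eventually.of_forall fun w => ?_)
      beta_reduce
      have r1 : (((1 / 2 : ℝ) : ℂ) + ((t + w : ℝ) : ℂ) * I).re = 1 / 2 := by simp
      have hz2 : (((1 / 2 : ℝ) : ℂ) + ((t + w : ℝ) : ℂ) * I) ≠ 1 := by
        intro h
        have := congrArg Complex.re h
        rw [r1] at this
        norm_num at this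
      rw [hFn, hZt _ (by rw [r1]; norm_num) hz2, norm_mul, norm_ratio_half, one_mul]
      have e3 : ‖1 + (((1 / 2 : ℝ) : ℂ) + ((t + w : ℝ) : ℂ) * I) - c‖ ^ 2 = 1 + w ^ 2 := by
        rw [hc, show 1 + (((1 / 2 : ℝ) : ℂ) + ((t + w : ℝ) : ℂ) * I) - (((1 / 2 : ℝ) : ℂ) + t * I) =
          1 + (w : ℂ) * I by push_cast; ring, Complex.sq_norm, Complex.normSq_apply]
        simp
        ring
      have e5 : (1 / ‖1 + (((1 / 2 : ℝ) : ℂ) + ((t + w : ℝ) : ℂ) * I) - c‖) ^ 2 = (1 + w ^ 2)⁻¹ := by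
        rw [div_pow, one_pow, e3, one_div]
      have e6 : ((1 / ‖1 + (((1 / 2 : ℝ) : ℂ) + ((t + w : ℝ) : ℂ) * I) - c‖) ^ 6) ^ 2 =
          ((1 + w ^ 2)⁻¹) ^ 6 := by
        rw [← pow_mul, mul_comm 6 2, pow_mul, e5]
      rw [mul_pow, e6]
      ring
    rw [hint] at hmain
    have := hlow.trans hmain
    linarith
  · intro z hz
    have hz' : (1:ℝ) / 2 < z.re := hz
    exact (hFd z (by linarith)).differentiableWithinAt
  · intro z hz
    have hz' : (1:ℝ) / 2 ≤ z.re := hz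
    exact (hFd z (by linarith)).continuousAt.continuousWithinAt
  · intro z hz
    have hz' : (1:ℝ) / 2 < z.re := hz
    exact hb z hz'.le

lemma ff_half (u : ℝ) : ‖riemannZeta (((1 / 2 : ℝ) : ℂ) + (u : ℝ) * I)‖ ^ 2 = ff u := by
  unfold Pool.Agent.Y969.GP.ff
  congr 3
  push_cast; ring

lemma ff_even (u : ℝ) : ff (-u) = ff u := by
  unfold Pool.Agent.Y969.GP.ff
  have e1 : (1 / 2 + I * ((-u : ℝ) : ℂ)) = (starRingEnd ℂ) (1 / 2 + I * (u : ℂ)) := by
    rw [map_add, map_mul, Complex.conj_I, Complex.conj_ofReal, map_div₀, map_one, map_ofNat]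
    push_cast
    ring
  rw [e1, riemannZeta_conj, RCLike.norm_conj]

lemma even_win {f : ℝ → ℝ} (hf : Continuous f) (h0 : ∀ x, 0 ≤ f x) (he : ∀ x, f (-x) = f x) {T : ℝ}
    (hT : 0 ≤ T) : ∫ t in (-T)..(2 * T), f t ≤ 2 * ∫ t in (0:ℝ)..(2 * T), f t := by
  have h1 : ∫ t in (-T)..(0:ℝ), f t = ∫ t in (0:ℝ)..T, f t := by
    have := intervalIntegral.integral_comp_neg (a := 0) (b := T) f
    rw [neg_zero] at this
    rw [← this]
    exact intervalIntegral.integral_congr fun x _ => he x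
  have h2 := intervalIntegral.integral_add_adjacent_intervals (hf.intervalIntegrable (μ := volume) (-T) 0)
    (hf.intervalIntegrable 0 (2 * T))
  have h3 : ∫ t in (0:ℝ)..T, f t ≤ ∫ t in (0:ℝ)..(2 * T), f t :=
    intervalIntegral.integral_mono_interval le_rfl hT (by linarith) (Eventually.of_forall h0)
      (hf.intervalIntegrable _ _)
  linarith

lemma ff_grow (x : ℝ) : ff x ≤ 288 * (1 + x ^ 2) := by
  have h1 : ‖riemannZeta (((1 / 2 : ℝ) : ℂ) + x * Complex.I)‖ ≤ 12 * (1 + |x|) :=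
    zn_le' (σ := 1 / 2) (t := x) (by norm_num) (by norm_num)
  rw [← ff_half]
  have h3 := pow_le_pow_left₀ (norm_nonneg _) h1 2
  have h4 : (1 + |x|) ^ 2 ≤ 2 * (1 + x ^ 2) := by nlinarith [sq_nonneg (1 - |x|), sq_abs x]
  nlinarith

lemma zmax_cont (σ : ℝ) : Continuous fun t : ℝ => ‖riemannZeta ((σ : ℂ) + (max t 1 : ℝ) * I)‖ ^ 2 := by
  rw [continuous_iff_continuousAt]
  intro t
  have h1 : DifferentiableAt ℂ riemannZeta ((σ : ℂ) + (max t 1 : ℝ) * I) := by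
    refine differentiableAt_riemannZeta fun h => ?_
    have := congrArg Complex.im h
    simp at this
    have h2 : (1:ℝ) ≤ max t 1 := le_max_right _ _
    linarith
  have h2 : ContinuousAt (fun t : ℝ => (σ : ℂ) + ((max t 1 : ℝ) : ℂ) * I) t := by fun_prop
  exact ((ContinuousAt.comp (f := fun t : ℝ => (σ : ℂ) + ((max t 1 : ℝ) : ℂ) * I) h1.continuousAt h2).norm).pow 2

theorem zl_avg {Δ T : ℝ} (h0 : 0 < Δ) (h1 : Δ ≤ 3 / 2) (hT : 1 ≤ T) :
    ∫ t in (1:ℝ)..T, ‖riemannZeta (((1 / 2 + Δ : ℝ) : ℂ) + t * I)‖ ^ 2 ≤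
      5 * (5 / 2) ^ 12 * (2 * (∫ t in (0:ℝ)..(2 * T), ff t) + 10000) := by
  have hT0 : 0 < T := by linarith
  set K : ℝ → ℝ := fun w => KP Δ w * ((1 + w ^ 2)⁻¹) ^ 6 with hKe
  have hinv : Continuous fun w : ℝ => (1 + w ^ 2)⁻¹ := by
    refine Continuous.inv₀ (by fun_prop) fun w => ?_
    have : (0:ℝ) < 1 + w ^ 2 := by positivity
    exact this.ne'
  have hKc : Continuous K := (KP_cont h0).mul (hinv.pow _)
  have hpw : ∀ w : ℝ, ((1 + w ^ 2)⁻¹) ^ 6 ≤ 1 := fun w =>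
    pow_le_one₀ (by positivity) (by rw [inv_le_one_iff₀]; right; nlinarith [sq_nonneg w])
  have hK0 : ∀ w, 0 ≤ K w := fun w => mul_nonneg (KP_nonneg h0 w) (by positivity)
  have hKb : ∀ w, K w ≤ (1 / Δ) * ((1 + w ^ 2)⁻¹) ^ 6 := fun w =>
    mul_le_mul_of_nonneg_right (KP_le h0 w) (by positivity)
  obtain ⟨j1, j2⟩ := KP_int h0
  have hKm : ∫ w, K w ≤ 1 := by
    rw [← j2]
    refine integral_mono_of_nonneg (Eventually.of_forall hK0) j1 (Eventually.of_forall fun w => ?_)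
    simp only [hKe]
    exact mul_le_of_le_one_right (KP_nonneg h0 w) (hpw w)
  obtain ⟨i2, -⟩ := tail_k (K := K) (A := 1 / Δ) (U := T) (k := 1) (m := 6) (by positivity) hT (by norm_num)
    hKc hK0 hKb
  have i1 : Integrable K := by
    refine i2.mono' (by fun_prop) (Filter.Eventually.of_forall fun w => ?_)
    rw [Real.norm_of_nonneg (hK0 w)]
    exact le_mul_of_one_le_right (hK0 w) (one_le_pow₀ (by nlinarith [sq_nonneg w]))
  -- the tail
  set K' : ℝ → ℝ := fun w => min (K w) (2 * ((1 + w ^ 2)⁻¹) ^ 6) with hK'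
  have hK'c : Continuous K' := hKc.min (continuous_const.mul (hinv.pow _))
  have hK'0 : ∀ w, 0 ≤ K' w := fun w => le_min (hK0 w) (by positivity)
  obtain ⟨-, i3⟩ := tail_k (K := K') (A := 2) (U := T) (k := 1) (m := 6) (by norm_num) hT (by norm_num)
    hK'c hK'0 (fun w => min_le_right _ _)
  have hms : MeasurableSet {w : ℝ | T < |w|} := measurableSet_lt measurable_const measurable_abs
  have i4 : ∫ w in {w : ℝ | T < |w|}, K w * (1 + w ^ 2) ^ 1 = ∫ w in {w : ℝ | T < |w|}, K' w * (1 + w ^ 2) ^ 1 := by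
    refine setIntegral_congr_fun hms fun w hw => ?_
    have hw' : T < |w| := hw
    have hw2 : 1 ≤ w ^ 2 := by
      rw [← sq_abs]; nlinarith
    have hk1 : KP Δ w ≤ 2 := by
      unfold KP
      have hpi := Real.pi_gt_three
      rw [div_div, div_le_iff₀ (by positivity)]
      nlinarith [mul_pos Real.pi_pos (by positivity : (0:ℝ) < w ^ 2 + Δ ^ 2)]
    have : K' w = K w := min_eq_left (mul_le_mul_of_nonneg_right hk1 (by positivity))
    simp only [this]
  have hmain := avg_leG (K := K) (G := ff)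
    (H := fun t => (5 * (5 / 2) ^ 12)⁻¹ * ‖riemannZeta (((1 / 2 + Δ : ℝ) : ℂ) + (max t 1 : ℝ) * I)‖ ^ 2)
    (φ := fun w => (1 + w ^ 2) ^ 1) (a := 1) (b := T) (U := T) (D := 288 * (4 * T ^ 2)) hT hT0.le hKc hK0 i2 i1
    ff_cont (fun x => by unfold Pool.Agent.Y969.GP.ff; positivity) ?_ (continuous_const.mul (zmax_cont _)) ?_
  · rw [i4] at hmain
    have e1 : ∫ t in (1:ℝ)..T, (5 * (5 / 2) ^ 12)⁻¹ *
        ‖riemannZeta (((1 / 2 + Δ : ℝ) : ℂ) + (max t 1 : ℝ) * I)‖ ^ 2 =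
        (5 * (5 / 2) ^ 12)⁻¹ * ∫ t in (1:ℝ)..T, ‖riemannZeta (((1 / 2 + Δ : ℝ) : ℂ) + t * I)‖ ^ 2 := by
      rw [intervalIntegral.integral_const_mul]
      congr 1
      refine intervalIntegral.integral_congr fun t ht => ?_
      rw [uIcc_of_le hT] at ht
      simp only [max_eq_left ht.1]
    rw [e1] at hmain
    have w0 : 0 ≤ ∫ t in (1 - T)..(T + T), ff t :=
      intervalIntegral.integral_nonneg (by linarith) fun x _ => by unfold Pool.Agent.Y969.GP.ff; positivity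
    have w1 : ∫ t in (1 - T)..(T + T), ff t ≤ 2 * ∫ t in (0:ℝ)..(2 * T), ff t := by
      refine le_trans ?_ (even_win ff_cont (fun x => by unfold Pool.Agent.Y969.GP.ff; positivity) ff_even hT0.le)
      rw [← two_mul]
      exact intervalIntegral.integral_mono_interval (by linarith) (by linarith) le_rfl
        (Eventually.of_forall fun x => by unfold Pool.Agent.Y969.GP.ff; positivity) (ff_cont.intervalIntegrable _ _)
    have w2 : (∫ w, K w) * ∫ t in (1 - T)..(T + T), ff t ≤ 2 * ∫ t in (0:ℝ)..(2 * T), ff t := by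
      calc (∫ w, K w) * ∫ t in (1 - T)..(T + T), ff t ≤ 1 * ∫ t in (1 - T)..(T + T), ff t :=
            mul_le_mul_of_nonneg_right hKm w0
        _ ≤ _ := by rw [one_mul]; exact w1
    have w3 : (T - 1) * (288 * (4 * T ^ 2)) * (∫ w in {w : ℝ | T < |w|}, K' w * (1 + w ^ 2) ^ 1) ≤ 10000 := by
      have hpi := Real.pi_lt_four
      have q0 : 0 ≤ (T - 1) * (288 * (4 * T ^ 2)) := mul_nonneg (by linarith) (by positivity)
      have q1 := mul_le_mul_of_nonneg_left i3 q0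
      refine q1.trans ?_
      norm_num
      have hT8 : T ^ 3 ≤ T ^ 8 := pow_le_pow_right₀ hT (by norm_num)
      have hT8' : 0 < T ^ 8 := by positivity
      have q2 : (T - 1) * (288 * (4 * T ^ 2)) ≤ 1152 * T ^ 8 := by nlinarith [sq_nonneg T]
      have q3 : 0 ≤ Real.pi * 2 * (T ^ 8)⁻¹ := by positivity
      calc (T - 1) * (288 * (4 * T ^ 2)) * (Real.pi * 2 * (T ^ 8)⁻¹)
          ≤ 1152 * T ^ 8 * (Real.pi * 2 * (T ^ 8)⁻¹) := mul_le_mul_of_nonneg_right q2 q3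
        _ = 2304 * Real.pi * (T ^ 8 * (T ^ 8)⁻¹) := by ring
        _ = 2304 * Real.pi := by rw [mul_inv_cancel₀ hT8'.ne', mul_one]
        _ ≤ 10000 := by linarith
    rw [inv_mul_le_iff₀ (by positivity)] at hmain
    refine hmain.trans ?_
    refine mul_le_mul_of_nonneg_left ?_ (by positivity)
    linarith
  · intro t ht w
    refine (ff_grow (t + w)).trans ?_
    have h2 : t ^ 2 ≤ T ^ 2 := pow_le_pow_left₀ (by linarith [ht.1]) ht.2 2
    have h3 : 1 + (t + w) ^ 2 ≤ 4 * T ^ 2 * (1 + w ^ 2) := by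
      nlinarith [sq_nonneg (t - w), sq_nonneg w, mul_nonneg (sq_nonneg T) (sq_nonneg w), one_le_pow₀ hT (n := 2)]
    calc 288 * (1 + (t + w) ^ 2) ≤ 288 * (4 * T ^ 2 * (1 + w ^ 2)) := by gcongr
      _ = _ := by ring
  · intro t ht
    rw [inv_mul_le_iff₀ (by positivity), max_eq_left ht.1]
    refine (zl_pt h0 h1 ht.1).trans (le_of_eq ?_)
    simp only [ff_half]
    rfl

theorem t_ZL : Pool.Agent.Y969.GP.S_ZL := by
  intro κ hκ
  obtain ⟨C, hC, hSM⟩ := t_SM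
  set B : ℝ := 5 * (5 / 2) ^ 12 with hB
  have hB1 : 1 ≤ B := by rw [hB]; norm_num
  refine ⟨B * (2 * (2 * C * 2 ^ κ / κ) + 10000), by positivity, fun x T hx hx2 hT => ?_⟩
  have hT0 : 0 < T := by linarith
  have hTk : 1 ≤ T ^ (1 + κ) := Real.one_le_rpow hT (by linarith)
  have hff0 : ∀ u, 0 ≤ ff u := fun u => by unfold Pool.Agent.Y969.GP.ff; positivity
  have s1 : ∫ t in (0:ℝ)..(2 * T), ff t ≤ (2 * C * 2 ^ κ / κ) * T ^ (1 + κ) := by
    have a1 : ∫ t in (0:ℝ)..(2 * T), ff t ≤ ∫ t in (0:ℝ)..(2 * (T + 1)), ff t :=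
      intervalIntegral.integral_mono_interval le_rfl (by linarith) (by linarith)
        (Eventually.of_forall hff0) (ff_cont.intervalIntegrable _ _)
    have a2 := hSM (T + 1) (by linarith)
    have a3 : Real.log (T + 1) ≤ (2 * T) ^ κ / κ := by
      refine (Real.log_le_rpow_div (by linarith) hκ).trans ?_
      gcongr
      linarith
    have a4 : 0 ≤ Real.log (T + 1) := Real.log_nonneg (by linarith)
    calc ∫ t in (0:ℝ)..(2 * T), ff t ≤ C * (T + 1) * Real.log (T + 1) := a1.trans a2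
      _ ≤ C * (2 * T) * ((2 * T) ^ κ / κ) := by
          refine mul_le_mul ?_ a3 a4 (by positivity)
          gcongr
          linarith
      _ = (2 * C * 2 ^ κ / κ) * T ^ (1 + κ) := by
          rw [Real.mul_rpow (by norm_num) hT0.le, Real.rpow_add hT0, Real.rpow_one]
          ring
  have e1 : ∀ v : ℝ, (x : ℂ) + I * (v : ℂ) = (x : ℂ) + v * I := fun v => by ring
  simp only [e1]
  rcases eq_or_lt_of_le hx with h | h
  · have e2 : ∀ v : ℝ, ‖riemannZeta ((x : ℂ) + v * I)‖ ^ 2 = ff v := by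
      intro v
      rw [← ff_half, ← h]
    simp only [e2]
    have a1 : ∫ v in (1:ℝ)..T, ff v ≤ ∫ v in (0:ℝ)..(2 * T), ff v :=
      intervalIntegral.integral_mono_interval (by norm_num) hT (by linarith)
        (Eventually.of_forall hff0) (ff_cont.intervalIntegrable _ _)
    refine (a1.trans s1).trans ?_
    have a2 : 0 ≤ 2 * C * 2 ^ κ / κ := by positivity
    refine mul_le_mul_of_nonneg_right ?_ (by positivity)
    nlinarith
  · have hh := zl_avg (Δ := x - 1 / 2) (T := T) (by linarith) (by linarith) hT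
    rw [show (1 / 2 + (x - 1 / 2) : ℝ) = x by ring] at hh
    refine hh.trans ?_
    have a3 : 2 * (∫ t in (0:ℝ)..(2 * T), ff t) + 10000 ≤ (2 * (2 * C * 2 ^ κ / κ) + 10000) * T ^ (1 + κ) := by
      nlinarith
    calc B * (2 * (∫ t in (0:ℝ)..(2 * T), ff t) + 10000)
        ≤ B * ((2 * (2 * C * 2 ^ κ / κ) + 10000) * T ^ (1 + κ)) := by gcongr
      _ = _ := by ring

end

end Pool.Agent.J4H26.SZ
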